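import Mathlib
import Pool.Agent.MP_31ecd0_co.Main

/-!
A lower bound for the rectilinear crossing constant: it is at least `2 (15 - π²) / 27 = 0.380029…`.
-/

open Filter

namespace Pool.Agent.Results.MP_31ecd0_co.LowerBound

/-- No three points of `S` lie on a line. -/
def GenPos (S : Finset (ℝ × ℝ)) : Prop :=
  ∀ a ∈ S, ∀ b ∈ S, ∀ c ∈ S, a ≠ b → a ≠ c → b ≠ c → ¬ Collinear ℝ ({a, b, c} : Set (ℝ × ℝ))

/-- The number of 4-point subsets of `S` in convex position. -/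
noncomputable def convexQuads (S : Finset (ℝ × ℝ)) : ℕ :=
  {Q : Finset (ℝ × ℝ) | Q ⊆ S ∧ Q.card = 4 ∧ ConvexIndependent ℝ ((↑) : Q → ℝ × ℝ)}.ncard

/-- The rectilinear crossing number of the complete graph on `n` vertices. -/
noncomputable def rcr (n : ℕ) : ℕ :=
  sInf {m | ∃ S : Finset (ℝ × ℝ), S.card = n ∧ GenPos S ∧ convexQuads S = m}

theorem result (ε : ℝ) (hε : 0 < ε) : ∀ᶠ n : ℕ in atTop,
    2 / 27 * (15 - Real.pi ^ 2) - ε ≤ (rcr n : ℝ) / (n.choose 4 : ℝ) := by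
  classical
  obtain ⟨N, hN⟩ := Cr31.main hε
  filter_upwards [eventually_ge_atTop (N + 4)] with n hn
  have hne : {m | ∃ S : Finset (ℝ × ℝ), S.card = n ∧ GenPos S ∧ convexQuads S = m}.Nonempty := by
    obtain ⟨S, h1, h2⟩ := Cr31.exists_gp n
    exact ⟨_, S, h1, fun a ha b hb c hc hab hac hbc =>
      (Cr31.gp_iff hab).2 (h2 a ha b hb c hc hab hac hbc), rfl⟩
  obtain ⟨S, h1, h2, h3⟩ := Nat.sInf_mem hne
  have h4 := hN S (by omega) fun a ha b hb c hc hab hac hbc =>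
    (Cr31.gp_iff hab).1 (h2 a ha b hb c hc hab hac hbc)
  have h5 : Cr31.conv S = convexQuads S := by
    unfold Cr31.conv convexQuads
    rw [← Set.ncard_coe_finset]
    congr 1
    ext Q
    simp only [Finset.coe_filter, Finset.mem_powersetCard, Set.mem_ofPred_eq, and_assoc]
  have h6 : (0 : ℝ) < n.choose 4 := by exact_mod_cast Nat.choose_pos (by omega)
  rw [le_div_iff₀ h6, rcr, ← h3, ← h5, ← h1]
  exact h4

end Pool.Agent.Results.MP_31ecd0_co.LowerBound
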