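import Mathlib
import Pool.Agent.MP_31ecd0_co.so.Main

/-!
The second order term of the rectilinear crossing number of the complete graph.
-/

open Filter Topology

namespace Pool.Agent.Results.MP_31ecd0_co.SecondOrder

/-- No three points of `S` lie on a line. -/
def GenPos (S : Finset (ℝ × ℝ)) : Prop :=
  ∀ a ∈ S, ∀ b ∈ S, ∀ c ∈ S, a ≠ b → a ≠ c → b ≠ c → ¬ Collinear ℝ ({a, b, c} : Set (ℝ × ℝ))

/-- The number of 4-point subsets of `S` in convex position. -/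
noncomputable def convexQuads (S : Finset (ℝ × ℝ)) : ℕ :=
  {Q : Finset (ℝ × ℝ) | Q ⊆ S ∧ Q.card = 4 ∧ ConvexIndependent ℝ ((↑) : Q → ℝ × ℝ)}.ncard

/-- The rectilinear crossing number of the complete graph on `n` vertices. -/
noncomputable def rcr (n : ℕ) : ℕ :=
  sInf {m | ∃ S : Finset (ℝ × ℝ), S.card = n ∧ GenPos S ∧ convexQuads S = m}

theorem result : ∃ ρ : ℝ,
    Tendsto (fun n : ℕ => (rcr n : ℝ) / (n.choose 4 : ℝ)) atTop (𝓝 ρ) ∧
    ∀ n : ℕ, (rcr n : ℝ) - (ρ * (n : ℝ) ^ 4 / 24 - (n : ℝ) ^ 3 / 8) ∈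
      Set.Icc 0 (13 * (n : ℝ) ^ (5 / 2 : ℝ)) := by
  classical
  have h5 : ∀ S, convexQuads S = CrUp.conv S := fun S => by
    unfold CrUp.conv convexQuads
    rw [← Set.ncard_coe_finset]
    congr 1
    ext Q
    simp only [Finset.coe_filter, Finset.mem_powersetCard, Set.mem_ofPred_eq, and_assoc]
  have h6 : ∀ S, GenPos S ↔ CrUp.GP S := fun S =>
    ⟨fun h a ha b hb c hc h1 h2 h3 => CrSo.gp_iff' h1 (h a ha b hb c hc h1 h2 h3),
      fun h a ha b hb c hc h1 h2 h3 => CrUp.gp_iff (h a ha b hb c hc h1 h2 h3)⟩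
  have h7 : rcr = CrSo.cr := funext fun n => by simp only [rcr, CrSo.cr, h5, h6]
  rw [h7]
  obtain ⟨ρ, h1, h2⟩ := CrSo.main
  exact ⟨ρ, h1, fun n => ⟨by linarith [(h2 n).1], by linarith [(h2 n).2]⟩⟩

end Pool.Agent.Results.MP_31ecd0_co.SecondOrder
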