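import Mathlib
import Pool.Agent.MP_31ecd0_co.up.Main

/-!
An upper bound for the rectilinear crossing constant: it is at most `0.3804381`.
-/

namespace Pool.Agent.Results.MP_31ecd0_co.UpperBound

/-- No three points of `S` lie on a line. -/
def GenPos (S : Finset (ℝ × ℝ)) : Prop :=
  ∀ a ∈ S, ∀ b ∈ S, ∀ c ∈ S, a ≠ b → a ≠ c → b ≠ c → ¬ Collinear ℝ ({a, b, c} : Set (ℝ × ℝ))

/-- The number of 4-point subsets of `S` in convex position. -/
noncomputable def convexQuads (S : Finset (ℝ × ℝ)) : ℕ :=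
  {Q : Finset (ℝ × ℝ) | Q ⊆ S ∧ Q.card = 4 ∧ ConvexIndependent ℝ ((↑) : Q → ℝ × ℝ)}.ncard

theorem result (n : ℕ) : ∃ S : Finset (ℝ × ℝ), S.card = n ∧ GenPos S ∧
    (convexQuads S : ℝ) ≤ 3804381 / 10000000 * (n.choose 4 : ℝ) := by
  classical
  have h5 : ∀ S, convexQuads S = CrUp.conv S := fun S => by
    unfold CrUp.conv convexQuads
    rw [← Set.ncard_coe_finset]
    congr 1
    ext Q
    simp only [Finset.coe_filter, Finset.mem_powersetCard, Set.mem_ofPred_eq, and_assoc]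
  have h6 : ∀ S, CrUp.GP S → GenPos S := fun S h a ha b hb c hc h1 h2 h3 =>
    CrUp.gp_iff (h a ha b hb c hc h1 h2 h3)
  rcases le_or_gt 4 n with hn | hn
  · obtain ⟨S, h1, h2, h3⟩ := CrUp.main hn
    exact ⟨S, h1, h6 S h2, h5 S ▸ h3⟩
  · obtain ⟨S, h1, h2, -⟩ := CrUp.main le_rfl
    obtain ⟨A, a1, a2⟩ := Finset.exists_subset_card_eq (s := S) (n := n) (by omega)
    refine ⟨A, a2, h6 A (h2.mono a1), ?_⟩
    rw [h5, CrUp.conv, Finset.powersetCard_eq_empty.2 (by omega), Nat.choose_eq_zero_of_lt hn]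
    simp

end Pool.Agent.Results.MP_31ecd0_co.UpperBound
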